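import Pool.Agent.Helper65.CG.Defs2

/-!
# Project UB (MP_246ef5), module C1: a random subset with independent elements
-/

set_option autoImplicit false

namespace Pool.Agent.Helper65.CG

open scoped Classical
open Pool.Agent.Helper65.CliqueGame

namespace Rnd

/-- The expectation of `f` at the random subset of `F` with probability `ε` for each element. -/
noncomputable def EE {α : Type} (ε : ℝ) (F : Finset α) (f : Finset α → ℝ) : ℝ :=
  ∑ S ∈ F.powerset, ε ^ S.card * (1 - ε) ^ (F.card - S.card) * f S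

variable {α : Type} {ε : ℝ}

theorem EE_empty (f : Finset α → ℝ) : EE ε ∅ f = f ∅ := by
  simp [EE]

theorem EE_insert [DecidableEq α] {x : α} {F : Finset α} (hx : x ∉ F) (f : Finset α → ℝ) :
    EE ε (insert x F) f = ε * EE ε F (fun S => f (insert x S)) + (1 - ε) * EE ε F f := by
  unfold EE
  rw [Finset.sum_powerset_insert hx, add_comm, Finset.mul_sum, Finset.mul_sum]
  congr 1
  · refine Finset.sum_congr rfl fun S hS => ?_
    have hxS : x ∉ S := fun h => hx (Finset.mem_powerset.mp hS h)
    rw [Finset.card_insert_of_notMem hx, Finset.card_insert_of_notMem hxS, pow_succ,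
      Nat.add_sub_add_right]
    ring
  · refine Finset.sum_congr rfl fun S hS => ?_
    have h1 : S.card ≤ F.card := Finset.card_le_card (Finset.mem_powerset.mp hS)
    rw [Finset.card_insert_of_notMem hx, Nat.sub_add_comm h1, pow_succ]
    ring

theorem EE_congr {F : Finset α} {f g : Finset α → ℝ} (h : ∀ S ⊆ F, f S = g S) :
    EE ε F f = EE ε F g :=
  Finset.sum_congr rfl fun S hS => by rw [h S (Finset.mem_powerset.mp hS)]

theorem EE_add (F : Finset α) (f g : Finset α → ℝ) :
    EE ε F (fun S => f S + g S) = EE ε F f + EE ε F g := by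
  unfold EE
  rw [← Finset.sum_add_distrib]
  exact Finset.sum_congr rfl fun S _ => by ring

theorem EE_mul (F : Finset α) (c : ℝ) (f : Finset α → ℝ) :
    EE ε F (fun S => c * f S) = c * EE ε F f := by
  unfold EE
  rw [Finset.mul_sum]
  exact Finset.sum_congr rfl fun S _ => by ring

theorem EE_sum {ι : Type} (F : Finset α) (T : Finset ι) (f : ι → Finset α → ℝ) :
    EE ε F (fun S => ∑ i ∈ T, f i S) = ∑ i ∈ T, EE ε F (f i) := by
  unfold EE
  simp only [Finset.mul_sum]
  rw [Finset.sum_comm]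

theorem EE_zero (F : Finset α) : EE ε F (fun _ => 0) = 0 := by
  simp [EE]

theorem EE_one (F : Finset α) : EE ε F (fun _ => 1) = 1 := by
  induction F using Finset.induction_on with
  | empty => rw [EE_empty]
  | insert x F hx ih =>
    rw [EE_insert hx, ih]
    ring

theorem EE_card (F : Finset α) : EE ε F (fun S => (S.card : ℝ)) = ε * F.card := by
  induction F using Finset.induction_on with
  | empty => rw [EE_empty]; simp
  | insert x F hx ih =>
    rw [EE_insert hx, ih, Finset.card_insert_of_notMem hx]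
    have h1 : EE ε F (fun S => ((insert x S).card : ℝ)) =
        EE ε F (fun S => (S.card : ℝ) + 1) :=
      EE_congr fun S hS => by
        rw [Finset.card_insert_of_notMem fun h => hx (hS h)]
        push_cast
        rfl
    rw [h1, EE_add, ih, EE_one]
    push_cast
    ring

theorem EE_disj [DecidableEq α] (H F : Finset α) :
    EE ε F (fun S => if Disjoint H S then 1 else 0) = (1 - ε) ^ (H ∩ F).card := by
  induction F using Finset.induction_on with
  | empty => rw [EE_empty]; simp
  | insert x F hx ih =>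
    rw [EE_insert hx, ih]
    by_cases hxH : x ∈ H
    · have h1 : EE ε F (fun S => if Disjoint H (insert x S) then (1 : ℝ) else 0) =
          EE ε F (fun _ => 0) := EE_congr fun S _ => by
        rw [if_neg]
        intro h
        exact Finset.disjoint_left.mp h hxH (Finset.mem_insert_self x S)
      rw [h1, EE_zero, Finset.inter_insert_of_mem hxH, Finset.card_insert_of_notMem, pow_succ]
      · ring
      · intro h
        exact hx (Finset.mem_inter.mp h).2
    · have h1 : EE ε F (fun S => if Disjoint H (insert x S) then (1 : ℝ) else 0) =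
          EE ε F (fun S => if Disjoint H S then (1 : ℝ) else 0) := EE_congr fun S _ => by
        simp only [Finset.disjoint_insert_right, hxH, not_false_eq_true, true_and]
      rw [h1, ih, Finset.inter_insert_of_notMem hxH]
      ring

theorem EE_match {q : ℕ} (M : Finset (Fin q × Fin q)) : ∀ (F : Finset (Fin q)), IsM M →
    (∀ p ∈ M, p.1 ∈ F ∧ p.2 ∈ F) →
    EE ε F (fun S => if ∃ p ∈ M, p.1 ∈ S ∧ p.2 ∈ S then 0 else 1) = (1 - ε ^ 2) ^ M.card := by
  induction M using Finset.induction_on with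
  | empty =>
    intro F _ _
    simp only [Finset.notMem_empty, false_and, exists_false, if_false, Finset.card_empty, pow_zero]
    exact EE_one F
  | insert p M hp ih =>
    intro F hM hF
    obtain ⟨a, b⟩ := p
    have hpM : ((a, b) : Fin q × Fin q) ∈ insert (a, b) M := Finset.mem_insert_self _ _
    have hab : a ≠ b := (hM _ hpM).1
    have hne : ∀ p' ∈ M, a ≠ p'.1 ∧ a ≠ p'.2 ∧ b ≠ p'.1 ∧ b ≠ p'.2 := fun p' hp' =>
      (hM _ hpM).2 p' (Finset.mem_insert_of_mem hp') (fun h => hp (h ▸ hp'))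
    have haF : a ∈ F := (hF _ hpM).1
    have hbF : b ∈ F := (hF _ hpM).2
    set F' := (F.erase a).erase b with hF'
    have ha' : a ∉ insert b F' := by
      rw [hF', Finset.mem_insert, Finset.mem_erase, Finset.mem_erase]
      rintro (h | ⟨_, h, _⟩)
      · exact hab h
      · exact h rfl
    have hb' : b ∉ F' := by
      rw [hF']
      exact Finset.notMem_erase _ _
    have haF'' : a ∉ F' := fun h => ha' (Finset.mem_insert_of_mem h)
    have hFF : F = insert a (insert b F') := by
      rw [hF', Finset.insert_erase (Finset.mem_erase.mpr ⟨hab.symm, hbF⟩),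
        Finset.insert_erase haF]
    have hM' : IsM M := fun p' hp' => ⟨(hM p' (Finset.mem_insert_of_mem hp')).1,
      fun p'' hp'' h => (hM p' (Finset.mem_insert_of_mem hp')).2 p''
        (Finset.mem_insert_of_mem hp'') h⟩
    have hMF : ∀ p' ∈ M, p'.1 ∈ F' ∧ p'.2 ∈ F' := by
      intro p' hp'
      have h1 := hF p' (Finset.mem_insert_of_mem hp')
      have h2 := hne p' hp'
      rw [hF']
      simp only [Finset.mem_erase]
      exact ⟨⟨h2.2.2.1.symm, h2.1.symm, h1.1⟩, ⟨h2.2.2.2.symm, h2.2.1.symm, h1.2⟩⟩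
    have key := ih F' hM' hMF
    rw [hFF, EE_insert ha', EE_insert hb', EE_insert hb', Finset.card_insert_of_notMem hp,
      pow_succ, ← key]
    -- the four cases
    have h1 : EE ε F' (fun S => if ∃ p ∈ insert (a, b) M, p.1 ∈ insert a (insert b S) ∧
        p.2 ∈ insert a (insert b S) then (0 : ℝ) else 1) = 0 := by
      refine (EE_congr fun S _ => ?_).trans (EE_zero (ε := ε) F')
      have h0 : ∃ p ∈ insert (a, b) M, p.1 ∈ insert a (insert b S) ∧
          p.2 ∈ insert a (insert b S) :=
        ⟨(a, b), Finset.mem_insert_self _ _, Finset.mem_insert_self _ _,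
          Finset.mem_insert_of_mem (Finset.mem_insert_self _ _)⟩
      exact if_pos h0
    have h2 : EE ε F' (fun S => if ∃ p ∈ insert (a, b) M, p.1 ∈ insert a S ∧
        p.2 ∈ insert a S then (0 : ℝ) else 1) =
        EE ε F' (fun S => if ∃ p ∈ M, p.1 ∈ S ∧ p.2 ∈ S then 0 else 1) := by
      refine EE_congr fun S hS => ?_
      congr 1
      apply propext
      constructor
      · rintro ⟨p, hpm, h3, h4⟩
        rw [Finset.mem_insert] at hpm
        rcases hpm with rfl | hpm
        · exfalso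
          rw [Finset.mem_insert] at h4
          rcases h4 with h4 | h4
          · exact hab h4.symm
          · exact hb' (hS h4)
        · have h5 := hne p hpm
          rw [Finset.mem_insert] at h3 h4
          exact ⟨p, hpm, h3.resolve_left h5.1.symm, h4.resolve_left h5.2.1.symm⟩
      · rintro ⟨p, hpm, h3, h4⟩
        exact ⟨p, Finset.mem_insert_of_mem hpm, Finset.mem_insert_of_mem h3,
          Finset.mem_insert_of_mem h4⟩
    have h3 : EE ε F' (fun S => if ∃ p ∈ insert (a, b) M, p.1 ∈ insert b S ∧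
        p.2 ∈ insert b S then (0 : ℝ) else 1) =
        EE ε F' (fun S => if ∃ p ∈ M, p.1 ∈ S ∧ p.2 ∈ S then 0 else 1) := by
      refine EE_congr fun S hS => ?_
      congr 1
      apply propext
      constructor
      · rintro ⟨p, hpm, h3, h4⟩
        rw [Finset.mem_insert] at hpm
        rcases hpm with rfl | hpm
        · exfalso
          rw [Finset.mem_insert] at h3
          rcases h3 with h3 | h3
          · exact hab h3
          · exact haF'' (hS h3)
        · have h5 := hne p hpm
          rw [Finset.mem_insert] at h3 h4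
          exact ⟨p, hpm, h3.resolve_left h5.2.2.1.symm, h4.resolve_left h5.2.2.2.symm⟩
      · rintro ⟨p, hpm, h3, h4⟩
        exact ⟨p, Finset.mem_insert_of_mem hpm, Finset.mem_insert_of_mem h3,
          Finset.mem_insert_of_mem h4⟩
    have h4 : EE ε F' (fun S => if ∃ p ∈ insert (a, b) M, p.1 ∈ S ∧
        p.2 ∈ S then (0 : ℝ) else 1) =
        EE ε F' (fun S => if ∃ p ∈ M, p.1 ∈ S ∧ p.2 ∈ S then 0 else 1) := by
      refine EE_congr fun S hS => ?_
      congr 1
      apply propext
      constructor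
      · rintro ⟨p, hpm, h3, h4⟩
        rw [Finset.mem_insert] at hpm
        rcases hpm with rfl | hpm
        · exact absurd (hS h3) haF''
        · exact ⟨p, hpm, h3, h4⟩
      · rintro ⟨p, hpm, h3, h4⟩
        exact ⟨p, Finset.mem_insert_of_mem hpm, h3, h4⟩
    rw [h1, h2, h3, h4]
    ring

/-- Some subset is at most the expectation. -/
theorem exists_le (hε : 0 < ε) (hε1 : ε < 1) (F : Finset α) (f : Finset α → ℝ) {c : ℝ}
    (h : EE ε F f ≤ c) : ∃ S ⊆ F, f S ≤ c := by
  by_contra hcon
  push Not at hcon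
  have h1 : EE ε F (fun _ => c) < EE ε F f := by
    unfold EE
    apply Finset.sum_lt_sum_of_nonempty ⟨∅, Finset.empty_mem_powerset F⟩
    intro S hS
    have h2 := hcon S (Finset.mem_powerset.mp hS)
    have h3 : 0 < 1 - ε := by linarith
    exact mul_lt_mul_of_pos_left h2 (by positivity)
  have h2 : EE ε F (fun _ => c) = c := by
    have := EE_mul (ε := ε) F c (fun _ => 1)
    rw [EE_one] at this
    simpa using this
  linarith

end Rnd

variable {n q m : ℕ}

theorem rand_match (F T : Finset (Fin q)) (M : Fin q → Finset (Fin q × Fin q)) {μ : ℕ} {ε : ℝ}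
    (hε : 0 < ε) (hε1 : ε < 1) (hμ : (1 - ε ^ 2) ^ μ ≤ 1 / 8)
    (hM : ∀ i ∈ T, IsM (M i) ∧ (∀ p ∈ M i, p.1 ∈ F ∧ p.2 ∈ F) ∧ μ ≤ (M i).card) :
    ∃ S ⊆ F, (S.card : ℝ) ≤ 4 * ε * F.card ∧
      T.card ≤ 2 * (T.filter (fun i => ∃ p ∈ M i, p.1 ∈ S ∧ p.2 ∈ S)).card := by
  rcases T.eq_empty_or_nonempty with rfl | hT
  · exact ⟨∅, Finset.empty_subset _, by simp; positivity, by simp⟩
  have ht : (0 : ℝ) < T.card := by exact_mod_cast hT.card_pos
  have hε2 : 0 ≤ 1 - ε ^ 2 := by nlinarith
  have hε3 : 1 - ε ^ 2 ≤ 1 := by nlinarith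
  have hF : F.Nonempty := by
    obtain ⟨i, hi⟩ := hT
    by_contra hF
    rw [Finset.not_nonempty_iff_eq_empty] at hF
    obtain ⟨_, h2, h3⟩ := hM i hi
    have h4 : M i = ∅ := by
      rw [Finset.eq_empty_iff_forall_notMem]
      intro p hp
      have := (h2 p hp).1
      rw [hF] at this
      exact Finset.notMem_empty _ this
    rw [h4, Finset.card_empty, Nat.le_zero] at h3
    rw [h3, pow_zero] at hμ
    norm_num at hμ
  have hN : (0 : ℝ) < F.card := by exact_mod_cast hF.card_pos
  have hexp : Rnd.EE ε F (fun S => (T.card : ℝ) * (S.card : ℝ) + 8 * ε * F.card *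
      ∑ i ∈ T, (if ∃ p ∈ M i, p.1 ∈ S ∧ p.2 ∈ S then (0 : ℝ) else 1)) ≤
      2 * ε * F.card * T.card := by
    rw [Rnd.EE_add, Rnd.EE_mul, Rnd.EE_mul, Rnd.EE_card, Rnd.EE_sum]
    have h1 : ∑ i ∈ T, Rnd.EE ε F (fun S => if ∃ p ∈ M i, p.1 ∈ S ∧ p.2 ∈ S then (0 : ℝ) else 1) ≤
        ∑ i ∈ T, (1 / 8 : ℝ) := by
      apply Finset.sum_le_sum
      intro i hi
      obtain ⟨h2, h3, h4⟩ := hM i hi
      rw [Rnd.EE_match (M i) F h2 h3]
      exact (pow_le_pow_of_le_one hε2 hε3 h4).trans hμ
    rw [Finset.sum_const, nsmul_eq_mul] at h1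
    have h2 : 0 ≤ 8 * ε * F.card := by positivity
    nlinarith [mul_le_mul_of_nonneg_left h1 h2]
  obtain ⟨S, hS, h1⟩ := Rnd.exists_le hε hε1 F _ hexp
  refine ⟨S, hS, ?_, ?_⟩
  · have h2 : 0 ≤ ∑ i ∈ T, (if ∃ p ∈ M i, p.1 ∈ S ∧ p.2 ∈ S then (0 : ℝ) else 1) :=
      Finset.sum_nonneg fun i _ => by split_ifs <;> norm_num
    have h3 : 0 ≤ 8 * ε * F.card * ∑ i ∈ T,
        (if ∃ p ∈ M i, p.1 ∈ S ∧ p.2 ∈ S then (0 : ℝ) else 1) := by positivity
    have h4 : (T.card : ℝ) * S.card ≤ T.card * (2 * ε * F.card) := by linarith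
    have h5 := le_of_mul_le_mul_left h4 ht
    nlinarith [mul_pos hε hN]
  · have h2 : ∑ i ∈ T, (if ∃ p ∈ M i, p.1 ∈ S ∧ p.2 ∈ S then (0 : ℝ) else 1) =
        (T.card : ℝ) - ((T.filter (fun i => ∃ p ∈ M i, p.1 ∈ S ∧ p.2 ∈ S)).card : ℝ) := by
      have h3 : ∀ i ∈ T, (if ∃ p ∈ M i, p.1 ∈ S ∧ p.2 ∈ S then (0 : ℝ) else 1) =
          1 - (if ∃ p ∈ M i, p.1 ∈ S ∧ p.2 ∈ S then (1 : ℝ) else 0) := by
        intro i _
        split_ifs <;> norm_num
      rw [Finset.sum_congr rfl h3, Finset.sum_sub_distrib, Finset.sum_const, nsmul_eq_mul, mul_one,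
        Finset.card_filter]
      push_cast
      rfl
    rw [h2] at h1
    have h3 : 0 ≤ (T.card : ℝ) * S.card := by positivity
    set z : ℝ := ((T.filter (fun i => ∃ p ∈ M i, p.1 ∈ S ∧ p.2 ∈ S)).card : ℝ) with hz
    have h4 : (2 * ε * F.card) * (4 * (T.card - z)) ≤ (2 * ε * F.card) * T.card := by
      nlinarith
    have h5 := le_of_mul_le_mul_left h4 (by positivity)
    have h6 : (T.card : ℝ) ≤ 2 * z := by linarith
    rw [hz] at h6
    exact_mod_cast h6

theorem rand_hit {ι : Type} (F : Finset (Fin q)) (T : Finset ι) (H : ι → Finset (Fin q)) {K : ℕ}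
    {ε : ℝ} (hε : 0 < ε) (hε1 : ε < 1) (hH : ∀ i ∈ T, H i ⊆ F ∧ K ≤ (H i).card) :
    ∃ S ⊆ F, (S.card : ℝ) ≤ 4 * ε * F.card ∧
      ((T.filter (fun i => Disjoint (H i) S)).card : ℝ) ≤ 4 * (1 - ε) ^ K * T.card := by
  rcases T.eq_empty_or_nonempty with rfl | hT
  · exact ⟨∅, Finset.empty_subset _, by simp; positivity, by simp⟩
  rcases F.eq_empty_or_nonempty with rfl | hF
  · refine ⟨∅, Finset.empty_subset _, by simp, ?_⟩
    obtain ⟨i, hi⟩ := hT
    have h1 := hH i hi
    have h2 : K = 0 := by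
      have h3 := Finset.card_le_card h1.1
      rw [Finset.card_empty] at h3
      omega
    rw [h2, pow_zero]
    have h3 : ((T.filter (fun i => Disjoint (H i) ∅)).card : ℝ) ≤ T.card := by
      exact_mod_cast Finset.card_filter_le _ _
    have h4 : (0 : ℝ) ≤ T.card := by positivity
    linarith
  have ht : (0 : ℝ) < T.card := by exact_mod_cast hT.card_pos
  have hN : (0 : ℝ) < F.card := by exact_mod_cast hF.card_pos
  have h1ε : 0 < 1 - ε := by linarith
  have hδ : 0 < (1 - ε) ^ K := by positivity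
  set δ := (1 - ε) ^ K with hδ'
  have hexp : Rnd.EE ε F (fun S => (T.card : ℝ) * δ * (S.card : ℝ) + ε * F.card *
      ∑ i ∈ T, (if Disjoint (H i) S then (1 : ℝ) else 0)) ≤
      2 * ε * F.card * T.card * δ := by
    rw [Rnd.EE_add, Rnd.EE_mul, Rnd.EE_mul, Rnd.EE_card, Rnd.EE_sum]
    have h1 : ∑ i ∈ T, Rnd.EE ε F (fun S => if Disjoint (H i) S then (1 : ℝ) else 0) ≤
        ∑ i ∈ T, δ := by
      apply Finset.sum_le_sum
      intro i hi
      obtain ⟨h2, h3⟩ := hH i hi
      rw [Rnd.EE_disj, Finset.inter_eq_left.mpr h2]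
      exact pow_le_pow_of_le_one h1ε.le (by linarith) h3
    rw [Finset.sum_const, nsmul_eq_mul] at h1
    have h2 : 0 ≤ ε * F.card := by positivity
    nlinarith [mul_le_mul_of_nonneg_left h1 h2]
  obtain ⟨S, hS, h1⟩ := Rnd.exists_le hε hε1 F _ hexp
  have h2 : ∑ i ∈ T, (if Disjoint (H i) S then (1 : ℝ) else 0) =
      ((T.filter (fun i => Disjoint (H i) S)).card : ℝ) := by
    rw [Finset.card_filter]
    push_cast
    rfl
  rw [h2] at h1
  refine ⟨S, hS, ?_, ?_⟩
  · have h3 : 0 ≤ ε * F.card * ((T.filter (fun i => Disjoint (H i) S)).card : ℝ) := by positivity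
    have h4 : (T.card * δ) * S.card ≤ (T.card * δ) * (2 * ε * F.card) := by linarith
    have h5 := le_of_mul_le_mul_left h4 (by positivity)
    nlinarith [mul_pos hε hN]
  · have h3 : 0 ≤ (T.card : ℝ) * δ * S.card := by positivity
    have h4 : (ε * F.card) * ((T.filter (fun i => Disjoint (H i) S)).card : ℝ) ≤
        (ε * F.card) * (2 * δ * T.card) := by linarith
    have h5 := le_of_mul_le_mul_left h4 (by positivity)
    nlinarith [mul_pos hδ ht]

end Pool.Agent.Helper65.CG
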